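import Mathlib
import Pool.Agent.V11172.WordRank
import Pool.Agent.V11172.ShiftCore

namespace Pool.Agent.Results.MP_e67e26_co.ShiftEquivalent

open Pool.Agent.V11172.WordRank
open Pool.Agent.V11172.ShiftCore

/-! ### Definitions -/

/-- The block `w(a) w(a+1) ⋯ w(b-1)` of a bi-infinite word. -/
def block {α : Type*} (w : ℤ → α) (a b : ℤ) : List α :=
  (List.range (b - a).toNat).map fun j : ℕ => w (a + (j : ℤ))

/-- `k` is the sequence of cut points of an `X`-factorization of the bi-infinite word `w`; the
factorization is the sequence of the blocks `block w (k i) (k (i + 1))`. -/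
structure IsFact {α : Type*} (X : Finset (List α)) (w : ℤ → α) (k : ℤ → ℤ) : Prop where
  lt : ∀ i, k i < k (i + 1)
  mem : ∀ i, block w (k i) (k (i + 1)) ∈ X

/-- The factorization with cut points `k` contains the word `x`. -/
def Contains {α : Type*} (w : ℤ → α) (k : ℤ → ℤ) (x : List α) : Prop :=
  ∃ i, block w (k i) (k (i + 1)) = x

/-- The factorizations with cut points `k` and `k'` are shift-equivalent: they are the same
bi-infinite sequence of words up to re-indexing. -/
def ShiftEquiv {α : Type*} (w : ℤ → α) (k k' : ℤ → ℤ) : Prop :=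
  ∃ m : ℤ, ∀ i, block w (k' (i + m)) (k' (i + m + 1)) = block w (k i) (k (i + 1))

variable {α : Type*}

/-! ### Position functions -/

/-- `a t` is the pair (block containing the position `t`, offset of `t` in this block) -/
structure Pos (X : Finset (List α)) (w : ℤ → α) (a : ℤ → List α × ℕ) : Prop where
  mem : ∀ t, (a t).1 ∈ X
  lt : ∀ t, (a t).2 < (a t).1.length
  letter : ∀ t, (a t).1[(a t).2]? = some (w t)
  next : ∀ t, (a t).2 + 1 < (a t).1.length → a (t + 1) = ((a t).1, (a t).2 + 1)
  last : ∀ t, (a t).2 + 1 = (a t).1.length → (a (t + 1)).2 = 0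

/-- the right-infinite word of `w` starting at `i` -/
def st (w : ℤ → α) (i : ℤ) : ℕ → α := fun n => w (i + n)

lemma st_cons (w : ℤ → α) (i : ℤ) : st w i = app [w i] (st w (i + 1)) := by
  funext k
  cases k with
  | zero => simp [st, app]
  | succ k =>
    show w (i + ((k + 1 : ℕ) : ℤ)) = w (i + 1 + k)
    congr 1
    push_cast
    ring

lemma block_length (w : ℤ → α) (a b : ℤ) : (block w a b).length = (b - a).toNat := by
  simp [block]

lemma fact_cover {X : Finset (List α)} {w : ℤ → α} {c : ℤ → ℤ} (hc : IsFact X w c) (j : ℤ) :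
    ∃ i, c i ≤ j ∧ j < c (i + 1) := by
  have hgrow : ∀ (n : ℕ) (a : ℤ), c a + n ≤ c (a + n) := by
    intro n
    induction n with
    | zero => intro a; simp
    | succ n ih =>
      intro a
      have h1 := ih a
      have h2 := hc.lt (a + n)
      have e1 : a + ((n + 1 : ℕ) : ℤ) = a + n + 1 := by push_cast; ring
      rw [e1]
      push_cast
      omega
  obtain ⟨i, hi, hmax⟩ := Int.exists_greatest_of_bdd (P := fun i => c i ≤ j)
    ⟨max 0 (j - c 0), by
      intro z hz
      by_contra hcon
      push Not at hcon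
      have hz0 : 0 < z := lt_of_le_of_lt (le_max_left _ _) hcon
      have hz1 : j - c 0 < z := lt_of_le_of_lt (le_max_right _ _) hcon
      obtain ⟨n, hn⟩ := Int.eq_ofNat_of_zero_le hz0.le
      have h1 := hgrow n 0
      rw [zero_add, ← hn] at h1
      omega⟩
    ⟨min 0 (j - c 0), by
      obtain ⟨n, hn⟩ := Int.eq_ofNat_of_zero_le
        (show 0 ≤ -(min 0 (j - c 0)) by
          have := min_le_left 0 (j - c 0)
          omega)
      have h1 := hgrow n (min 0 (j - c 0))
      have h2 : min 0 (j - c 0) + (n : ℤ) = 0 := by omega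
      rw [h2] at h1
      have h3 := min_le_right 0 (j - c 0)
      omega⟩
  refine ⟨i, hi, ?_⟩
  by_contra hcon
  push Not at hcon
  have := hmax _ hcon
  omega

/-- the block index is unique -/
lemma fact_unique {X : Finset (List α)} {w : ℤ → α} {c : ℤ → ℤ} (hc : IsFact X w c) {j i i' : ℤ}
    (h1 : c i ≤ j) (h2 : j < c (i + 1)) (h1' : c i' ≤ j) (h2' : j < c (i' + 1)) : i = i' := by
  have hmono : StrictMono c := strictMono_int_of_lt_succ hc.lt
  have a1 : i < i' + 1 := hmono.lt_iff_lt.1 (lt_of_le_of_lt h1 h2')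
  have a2 : i' < i + 1 := hmono.lt_iff_lt.1 (lt_of_le_of_lt h1' h2)
  omega

/-- every factorization has a position function -/
lemma exists_pos {X : Finset (List α)} {w : ℤ → α} {c : ℤ → ℤ} (hc : IsFact X w c) :
    ∃ a, Pos X w a ∧ ∀ t i, c i ≤ t → t < c (i + 1) →
      a t = (block w (c i) (c (i + 1)), (t - c i).toNat) := by
  choose idx h1 h2 using fact_cover hc
  have key : ∀ t i, c i ≤ t → t < c (i + 1) →
      (block w (c (idx t)) (c (idx t + 1)), (t - c (idx t)).toNat) =
        (block w (c i) (c (i + 1)), (t - c i).toNat) := by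
    intro t i h3 h4
    rw [fact_unique hc (h1 t) (h2 t) h3 h4]
  refine ⟨fun t => (block w (c (idx t)) (c (idx t + 1)), (t - c (idx t)).toNat), ?_, key⟩
  have a1 := h1
  have a2 := h2
  constructor
  · intro t; exact hc.mem _
  · intro t
    show (t - c (idx t)).toNat < (block w (c (idx t)) (c (idx t + 1))).length
    rw [block_length]
    have := a1 t
    have := a2 t
    omega
  · intro t
    show (block w (c (idx t)) (c (idx t + 1)))[(t - c (idx t)).toNat]? = some (w t)
    have b1 := a1 t
    have b2 := a2 t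
    have b3 : (t - c (idx t)).toNat < (c (idx t + 1) - c (idx t)).toNat := by omega
    have b4 : c (idx t) + (((t - c (idx t)).toNat : ℕ) : ℤ) = t := by
      rw [Int.toNat_of_nonneg (by omega)]; ring
    simp only [block, List.getElem?_map, List.getElem?_range b3, Option.map_some, b4]
  · intro t ht
    simp only [block_length] at ht
    have b1 := a1 t
    have b2 := a2 t
    show (block w (c (idx (t + 1))) (c (idx (t + 1) + 1)), (t + 1 - c (idx (t + 1))).toNat) = _
    rw [key (t + 1) (idx t) (by omega) (by omega)]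
    refine Prod.ext rfl ?_
    show (t + 1 - c (idx t)).toNat = (t - c (idx t)).toNat + 1
    omega
  · intro t ht
    simp only [block_length] at ht
    have b1 := a1 t
    have b2 := a2 t
    have b3 := hc.lt (idx t + 1)
    show (t + 1 - c (idx (t + 1))).toNat = 0
    have e : t + 1 = c (idx t + 1) := by omega
    have := congrArg Prod.snd (key (t + 1) (idx t + 1) (by omega) (by omega))
    simp only at this
    rw [this, e]
    simp

/-! ### The right-infinite words -/

lemma Pos.ne_nil {X : Finset (List α)} {w : ℤ → α} {a : ℤ → List α × ℕ} (ha : Pos X w a)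
    (t : ℤ) : (a t).1.drop (a t).2 ≠ [] := by
  intro h
  have := ha.lt t
  rw [List.drop_eq_nil_iff] at h
  omega

lemma Pos.drop_cons {X : Finset (List α)} {w : ℤ → α} {a : ℤ → List α × ℕ} (ha : Pos X w a)
    (t : ℤ) : (a t).1.drop (a t).2 = w t :: (a t).1.drop ((a t).2 + 1) := by
  have h1 := ha.lt t
  have h2 := ha.letter t
  rw [List.getElem?_eq_getElem h1] at h2
  rw [List.drop_eq_getElem_cons h1, Option.some.inj h2]

lemma Pos.tail {X : Finset (List α)} {w : ℤ → α} {a : ℤ → List α × ℕ} (ha : Pos X w a) :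
    ∀ (n : ℕ) (t : ℤ), (a t).1.length - (a t).2 ≤ n →
      ∃ u, t < u ∧ (a u).2 = 0 ∧ st w t = app ((a t).1.drop (a t).2) (st w u) := by
  intro n
  induction n with
  | zero =>
    intro t ht
    have := ha.lt t
    omega
  | succ n ih =>
    intro t ht
    have h1 := ha.lt t
    rcases Nat.lt_or_ge ((a t).2 + 1) (a t).1.length with h2 | h2
    · have h3 := ha.next t h2
      obtain ⟨u, hu, hu0, hu1⟩ := ih (t + 1) (by rw [h3]; simp only; omega)
      refine ⟨u, by omega, hu0, ?_⟩
      rw [ha.drop_cons, st_cons, hu1, h3, ← app_append]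
      rfl
    · have h3 : (a t).2 + 1 = (a t).1.length := by omega
      refine ⟨t + 1, by omega, ha.last t h3, ?_⟩
      rw [ha.drop_cons, h3, List.drop_length]
      exact st_cons w t

lemma Pos.exists_tail {X : Finset (List α)} {w : ℤ → α} {a : ℤ → List α × ℕ} (ha : Pos X w a)
    (t : ℤ) : ∃ u, t < u ∧ (a u).2 = 0 ∧ st w t = app ((a t).1.drop (a t).2) (st w u) :=
  ha.tail _ t le_rfl

lemma Pos.fac {X : Finset (List α)} {w : ℤ → α} {a : ℤ → List α × ℕ} (ha : Pos X w a)
    {t : ℤ} (ht : (a t).2 = 0) : Fac X (st w t) := by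
  refine ⟨{V | ∃ s, (a s).2 = 0 ∧ V = st w s}, ⟨t, ht, rfl⟩, ?_⟩
  rintro V ⟨s, hs, rfl⟩
  obtain ⟨u, -, hu0, hu1⟩ := ha.exists_tail s
  refine ⟨(a s).1, ha.mem s, st w u, ⟨u, hu0, rfl⟩, ?_⟩
  rw [hu1, hs]
  rfl

/-- before a cut the position is the last one of its block -/
lemma Pos.last_of {X : Finset (List α)} {w : ℤ → α} {a : ℤ → List α × ℕ} (ha : Pos X w a)
    {t : ℤ} (ht : (a (t + 1)).2 = 0) : (a t).2 + 1 = (a t).1.length := by
  have h1 := ha.lt t
  by_contra h2
  have h3 := ha.next t (by omega)
  rw [h3] at ht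
  simp at ht

/-! ### Determinism -/

open Classical in
/-- two different elements of `X` cannot begin the same right-infinite word -/
lemma code_drop {X : Finset (List α)} (h0 : [] ∉ X) (hrank : rc X = X.card) {x y : List α}
    (hx : x ∈ X) (hy : y ∈ X) {U V : ℕ → α} (hU : Fac X U) (hV : Fac X V)
    (e : app x U = app y V) : x = y := by
  by_contra hne
  obtain ⟨Z, hZ0, hZc, hZ⟩ := graph_lemma _ X rfl h0 (X.erase y) (by
    intro u hu
    by_cases h1 : u = y
    · refine ⟨x, Finset.mem_erase.2 ⟨hne, hx⟩, Relation.ReflTransGen.single ⟨hu, hx, ?_⟩⟩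
      rw [h1]
      exact ⟨V, U, hV, hU, e.symm⟩
    · exact ⟨u, Finset.mem_erase.2 ⟨h1, hu⟩, Relation.ReflTransGen.refl⟩)
  have h1 := rc_le hZ0 hZ
  have h2 : (X.erase y).card = X.card - 1 := Finset.card_erase_of_mem hy
  have h3 : 0 < X.card := Finset.card_pos.2 ⟨x, hx⟩
  omega

section Two

variable {X : Finset (List α)} {w : ℤ → α} {a b : ℤ → List α × ℕ}

/-- one half of determinism: `a` ends a block at `t`, `b` does not -/
lemma det_half (h0 : [] ∉ X) (hrank : rc X = X.card) (ha : Pos X w a) (hb : Pos X w b)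
    {t t' : ℤ} (h1 : a t = a t') (h2 : b t = b t') (hl : (a t).2 + 1 = (a t).1.length)
    (hnl : (b t).2 + 1 < (b t).1.length) : a (t + 1) = a (t' + 1) := by
  have c1 := ha.last t hl
  have c2 := ha.last t' (h1 ▸ hl)
  have n1 := hb.next t hnl
  have n2 := hb.next t' (h2 ▸ hnl)
  have key : (a (t + 1)).1 = (a (t' + 1)).1 := by
    by_contra hne
    obtain ⟨u, -, hu0, hu1⟩ := ha.exists_tail (t + 1)
    obtain ⟨u', -, hu0', hu1'⟩ := ha.exists_tail (t' + 1)
    obtain ⟨v, -, hv0, hv1⟩ := hb.exists_tail (t + 1)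
    obtain ⟨v', -, hv0', hv1'⟩ := hb.exists_tail (t' + 1)
    rw [c1, List.drop_zero] at hu1
    rw [c2, List.drop_zero] at hu1'
    have hlt := rank_drop h0 (hb.ne_nil (t + 1)) (ha.mem (t + 1)) (ha.mem (t' + 1)) hne
      (hb.fac hv0) (ha.fac hu0) (hb.fac hv0') (ha.fac hu0') (by rw [← hv1, ← hu1]) (by
        have : b (t + 1) = b (t' + 1) := by rw [n1, n2, h2]
        rw [this, ← hv1', ← hu1'])
    omega
  exact Prod.ext key (c1.trans c2.symm)

/-- determinism of the pair of positions away from common cuts -/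
lemma det (h0 : [] ∉ X) (hrank : rc X = X.card) (ha : Pos X w a) (hb : Pos X w b)
    {t t' : ℤ} (h1 : a t = a t') (h2 : b t = b t')
    (hn : ¬ ((a (t + 1)).2 = 0 ∧ (b (t + 1)).2 = 0)) :
    a (t + 1) = a (t' + 1) ∧ b (t + 1) = b (t' + 1) := by
  have l1 := ha.lt t
  have l2 := hb.lt t
  rcases Nat.lt_or_ge ((a t).2 + 1) (a t).1.length with ca | ca
  · have ea : a (t + 1) = a (t' + 1) := by
      rw [ha.next t ca, ha.next t' (h1 ▸ ca), h1]
    refine ⟨ea, ?_⟩
    rcases Nat.lt_or_ge ((b t).2 + 1) (b t).1.length with cb | cb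
    · rw [hb.next t cb, hb.next t' (h2 ▸ cb), h2]
    · exact det_half h0 hrank hb ha h2 h1 (by omega) ca
  · rcases Nat.lt_or_ge ((b t).2 + 1) (b t).1.length with cb | cb
    · refine ⟨det_half h0 hrank ha hb h1 h2 (by omega) cb, ?_⟩
      rw [hb.next t cb, hb.next t' (h2 ▸ cb), h2]
    · exact absurd ⟨ha.last t (by omega), hb.last t (by omega)⟩ hn

/-- after a common cut the factorizations agree -/
lemma agree (h0 : [] ∉ X) (hrank : rc X = X.card) (ha : Pos X w a) (hb : Pos X w b)
    {t : ℤ} (h1 : (a t).2 = 0) (h2 : (b t).2 = 0) : ∀ n : ℕ, a (t + n) = b (t + n) := by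
  have key : ∀ s, (a s).2 = 0 → (b s).2 = 0 → a s = b s := by
    intro s h1 h2
    obtain ⟨u, -, hu0, hu1⟩ := ha.exists_tail s
    obtain ⟨v, -, hv0, hv1⟩ := hb.exists_tail s
    rw [h1, List.drop_zero] at hu1
    rw [h2, List.drop_zero] at hv1
    exact Prod.ext (code_drop h0 hrank (ha.mem s) (hb.mem s) (ha.fac hu0) (hb.fac hv0)
      (by rw [← hu1, ← hv1])) (h1.trans h2.symm)
  intro n
  induction n with
  | zero => simpa using key t h1 h2
  | succ n ih =>
    have e1 : t + ((n + 1 : ℕ) : ℤ) = t + n + 1 := by push_cast; ring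
    rw [e1]
    have l1 := ha.lt (t + n)
    rcases Nat.lt_or_ge ((a (t + n)).2 + 1) (a (t + n)).1.length with c | c
    · rw [ha.next _ c, hb.next _ (ih ▸ c), ih]
    · apply key
      · exact ha.last _ (by omega)
      · apply hb.last
        rw [← ih]
        omega

/-- either the factorizations coincide or there are no common cuts -/
lemma no_common (h0 : [] ∉ X) (hrank : rc X = X.card) (ha : Pos X w a) (hb : Pos X w b) :
    (∀ t, a t = b t) ∨ ∀ t, ¬ ((a t).2 = 0 ∧ (b t).2 = 0) := by
  by_cases hA : ∀ T : ℤ, ∃ t ≤ T, (a t).2 = 0 ∧ (b t).2 = 0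
  · left
    intro t
    obtain ⟨s, hs, h1, h2⟩ := hA t
    obtain ⟨n, hn⟩ := Int.eq_ofNat_of_zero_le (show 0 ≤ t - s by omega)
    have h3 := agree h0 hrank ha hb h1 h2 n
    have e : s + (n : ℤ) = t := by omega
    rwa [e] at h3
  · right
    push Not at hA
    obtain ⟨T, hT⟩ := hA
    by_contra hcon
    push Not at hcon
    obtain ⟨t₀, ht₀, hmin⟩ := Int.exists_least_of_bdd
      (P := fun t => (a t).2 = 0 ∧ (b t).2 = 0) ⟨T, fun z hz => by
        by_contra h
        push Not at h
        exact hT z h.le hz.1 hz.2⟩ hcon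
    -- pigeonhole
    classical
    let F : Finset (List α × ℕ) := X.biUnion fun x => (Finset.range x.length).image fun j => (x, j)
    have hF : ∀ c : ℤ → List α × ℕ, Pos X w c → ∀ t, c t ∈ F := by
      intro c hc t
      rw [Finset.mem_biUnion]
      exact ⟨(c t).1, hc.mem t, Finset.mem_image.2 ⟨(c t).2, Finset.mem_range.2 (hc.lt t), rfl⟩⟩
    obtain ⟨x, hx, y, hy, hxy, he⟩ := Set.Infinite.exists_ne_map_eq_of_mapsTo
      (s := Set.Iic (t₀ - 1)) (t := ((F ×ˢ F : Finset _) : Set _))
      (f := fun t => (a t, b t)) (Set.Iic_infinite _) (by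
        intro t _
        rw [Finset.mem_coe, Finset.mem_product]
        exact ⟨hF a ha t, hF b hb t⟩) (Finset.finite_toSet _)
    have aux : ∀ x y : ℤ, x < y → y ≤ t₀ - 1 → (a x, b x) = (a y, b y) → False := by
      intro x y hxy hy he
      have hstep : ∀ k : ℕ, y + k ≤ t₀ - 1 → a (y + k) = a (x + k) ∧ b (y + k) = b (x + k) := by
        intro k
        induction k with
        | zero =>
          intro _
          exact ⟨by simpa using (congrArg Prod.fst he).symm,
            by simpa using (congrArg Prod.snd he).symm⟩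
        | succ k ih =>
          intro hk
          have e1 : y + ((k + 1 : ℕ) : ℤ) = y + k + 1 := by push_cast; ring
          have e2 : x + ((k + 1 : ℕ) : ℤ) = x + k + 1 := by push_cast; ring
          obtain ⟨i1, i2⟩ := ih (by omega)
          rw [e1, e2]
          apply det h0 hrank ha hb i1 i2
          intro hc
          have := hmin _ hc
          omega
      obtain ⟨k, hk⟩ := Int.eq_ofNat_of_zero_le (show 0 ≤ t₀ - 1 - y by omega)
      obtain ⟨i1, i2⟩ := hstep k (by omega)
      have e1 : y + (k : ℤ) = t₀ - 1 := by omega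
      rw [e1] at i1 i2
      have e2 : t₀ - 1 + 1 = t₀ := by ring
      have l1 := ha.last_of (t := t₀ - 1) (by rw [e2]; exact ht₀.1)
      have l2 := hb.last_of (t := t₀ - 1) (by rw [e2]; exact ht₀.2)
      rw [i1] at l1
      rw [i2] at l2
      have := hmin _ ⟨ha.last _ l1, hb.last _ l2⟩
      omega
    rcases lt_or_gt_of_ne hxy with h | h
    · exact aux x y h hy he
    · exact aux y x h hx he.symm

/-- the case without common cuts: `b` is a shift of `a` -/
lemma shift_of_no_common (h0 : [] ∉ X) (hrank : rc X = X.card) (ha : Pos X w a)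
    (hb : Pos X w b) (hn : ∀ t, ¬ ((a t).2 = 0 ∧ (b t).2 = 0))
    (hall : ∀ x ∈ X, ∃ t, b t = (x, 0)) : ∃ m : ℤ, ∀ t, b t = a (t + m) := by
  classical
  let A := {p : List α × ℕ // p.1 ∈ X ∧ p.2 < p.1.length}
  have hfin : Finite A := by
    let F : Finset (List α × ℕ) := X.biUnion fun x => (Finset.range x.length).image fun j => (x, j)
    apply Finite.of_injective (fun p : A => (⟨p.1, by
      rw [Finset.mem_biUnion]
      exact ⟨p.1.1, p.2.1, Finset.mem_image.2 ⟨p.1.2, Finset.mem_range.2 p.2.2, rfl⟩⟩⟩ : F))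
    intro p q h
    exact Subtype.ext (congrArg (fun x : F => x.1) h)
  have : Fintype A := Fintype.ofFinite A
  let a' : ℤ → A := fun t => ⟨a t, ha.mem t, ha.lt t⟩
  let b' : ℤ → A := fun t => ⟨b t, hb.mem t, hb.lt t⟩
  have : Nonempty A := ⟨a' 0⟩
  have hdet : ∀ t t', a' t = a' t' → b' t = b' t' → a' (t + 1) = a' (t' + 1) ∧
      b' (t + 1) = b' (t' + 1) := by
    intro t t' h1 h2
    obtain ⟨i1, i2⟩ := det h0 hrank ha hb (congrArg Subtype.val h1) (congrArg Subtype.val h2)
      (hn (t + 1))
    exact ⟨Subtype.ext i1, Subtype.ext i2⟩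
  have hdetn : ∀ (n : ℕ) (t t' : ℤ), a' t = a' t' → b' t = b' t' → a' (t + n) = a' (t' + n) ∧
      b' (t + n) = b' (t' + n) := by
    intro n
    induction n with
    | zero => intro t t' h1 h2; simpa using ⟨h1, h2⟩
    | succ n ih =>
      intro t t' h1 h2
      obtain ⟨i1, i2⟩ := ih t t' h1 h2
      have e1 : t + ((n + 1 : ℕ) : ℤ) = t + n + 1 := by push_cast; ring
      have e2 : t' + ((n + 1 : ℕ) : ℤ) = t' + n + 1 := by push_cast; ring
      rw [e1, e2]
      exact hdet _ _ i1 i2
  -- the period
  set N := Fintype.card (A × A) with hN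
  set M := N.factorial with hM
  have hM0 : M ≠ 0 := Nat.factorial_ne_zero N
  have : NeZero M := ⟨hM0⟩
  have hper : ∀ T : ℤ, a' (T + M) = a' T ∧ b' (T + M) = b' T := by
    intro T
    obtain ⟨i, j, hij, he⟩ := Fintype.exists_ne_map_eq_of_card_lt
      (f := fun i : Fin (N + 1) => (a' (T - i), b' (T - i))) (by simp [hN])
    have aux : ∀ i j : Fin (N + 1), i < j → (a' (T - i), b' (T - i)) = (a' (T - j), b' (T - j)) →
        a' (T + M) = a' T ∧ b' (T + M) = b' T := by
      intro i j hij he
      have hij' : (i : ℕ) < j := hij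
      have hj := j.2
      obtain ⟨d, hd⟩ : ∃ d : ℕ, (j : ℕ) = i + d := ⟨j - i, by omega⟩
      have hd1 : 1 ≤ d := by omega
      have h1 : ∀ n : ℕ, a' (T - j + n) = a' (T - j + n + d) ∧
          b' (T - j + n) = b' (T - j + n + d) := by
        intro n
        have h2 := hdetn n (T - j) (T - i) (congrArg Prod.fst he).symm (congrArg Prod.snd he).symm
        have e1 : T - (i : ℕ) + (n : ℤ) = T - (j : ℕ) + n + d := by rw [hd]; push_cast; ring
        rw [e1] at h2
        exact h2
      have h3 : ∀ k : ℕ, a' T = a' (T + k * d) ∧ b' T = b' (T + k * d) := by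
        intro k
        induction k with
        | zero => simp
        | succ k ih =>
          have h4 := h1 (j + k * d)
          have e1 : T - (j : ℕ) + ((j + k * d : ℕ) : ℤ) = T + k * d := by push_cast; ring
          have e2 : T + ((k + 1 : ℕ) : ℤ) * d = T + k * d + d := by push_cast; ring
          rw [e1] at h4
          rw [e2]
          exact ⟨ih.1.trans h4.1, ih.2.trans h4.2⟩
      obtain ⟨q, hq⟩ : d ∣ M := Nat.dvd_factorial (by omega) (by omega)
      have h5 := h3 q
      have e1 : T + (q : ℤ) * d = T + M := by rw [hq]; push_cast; ring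
      rw [e1] at h5
      exact ⟨h5.1.symm, h5.2.symm⟩
    rcases lt_or_gt_of_ne hij with h | h
    · exact aux i j h he
    · exact aux j i h he.symm
  have hpa : Function.Periodic a' (M : ℤ) := fun T => (hper T).1
  have hpb : Function.Periodic b' (M : ℤ) := fun T => (hper T).2
  have hmod : ∀ (f : ℤ → A), Function.Periodic f (M : ℤ) → ∀ t : ℤ,
      f (((t : ZMod M).val : ℕ) : ℤ) = f t := by
    intro f hf t
    rw [ZMod.val_intCast]
    have h1 := Int.mul_ediv_add_emod t M
    have h2 := (hf.int_mul (t / M)) (t % M)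
    rw [Int.cast_id] at h2
    rw [← h2]
    congr 1
    linarith [mul_comm (t / (M : ℤ)) (M : ℤ)]
  let a₁ : ZMod M → A := fun z => a' (z.val : ℤ)
  let a₂ : ZMod M → A := fun z => b' (z.val : ℤ)
  have ha₁ : ∀ t : ℤ, a₁ (t : ZMod M) = a' t := hmod a' hpa
  have ha₂ : ∀ t : ℤ, a₂ (t : ZMod M) = b' t := hmod b' hpb
  have hcast : ∀ z : ZMod M, z = ((z.val : ℤ) : ZMod M) := by
    intro z
    rw [Int.cast_natCast, ZMod.natCast_zmod_val]
  -- predecessor
  have hpred : ∀ (c : ℤ → List α × ℕ), Pos X w c → ∀ (x : List α) (j : ℕ) (t : ℤ),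
      j + 1 < x.length → (c (t + 1) = (x, j + 1) ↔ c t = (x, j)) := by
    intro c hc x j t hj
    constructor
    · intro h
      rcases Nat.lt_or_ge ((c t).2 + 1) (c t).1.length with h1 | h1
      · have h2 := hc.next t h1
        rw [h] at h2
        have h3 := congrArg Prod.fst h2
        have h4 := congrArg Prod.snd h2
        simp only at h3 h4
        exact Prod.ext h3.symm (by simp only; omega)
      · have h2 := hc.lt t
        have h3 := hc.last t (by omega)
        rw [h] at h3
        simp at h3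
    · intro h
      have h1 := hc.next t (by rw [h]; exact hj)
      rw [h] at h1
      exact h1
  have hgood : Good a₁ a₂ {p : A | p.1.2 = 0} := by
    constructor
    · rintro ⟨⟨x, j⟩, hx, hj⟩ hns
      obtain ⟨i, rfl⟩ : ∃ i, j = i + 1 := by
        have : j ≠ 0 := hns
        exact ⟨j - 1, by omega⟩
      have hj' : i + 1 < x.length := hj
      refine ⟨⟨(x, i), hx, by simp only; omega⟩, ?_, ?_⟩
      · intro z
        rw [hcast z, ← Int.cast_one, ← Int.cast_add, ha₁, ha₁]
        have h1 := hpred a ha x i (z.val : ℤ) hj'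
        constructor
        · intro h; exact Subtype.ext (h1.1 (congrArg Subtype.val h))
        · intro h; exact Subtype.ext (h1.2 (congrArg Subtype.val h))
      · intro z
        rw [hcast z, ← Int.cast_one, ← Int.cast_add, ha₂, ha₂]
        have h1 := hpred b hb x i (z.val : ℤ) hj'
        constructor
        · intro h; exact Subtype.ext (h1.1 (congrArg Subtype.val h))
        · intro h; exact Subtype.ext (h1.2 (congrArg Subtype.val h))
    · -- the starts are inequivalent
      rintro ⟨⟨x, j⟩, hx, hj⟩ hs ⟨⟨y, j'⟩, hy, hj'⟩ hs' hequ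
      have hs0 : j = 0 := hs
      have hs0' : j' = 0 := hs'
      subst hs0
      subst hs0'
      by_contra hne
      have hxy : x ≠ y := by
        rintro rfl
        exact hne rfl
      set e : A := ⟨(x, 0), hx, hj⟩ with he
      set e' : A := ⟨(y, 0), hy, hj'⟩ with he'
      let u : A → List α := fun p => p.1.1.drop p.1.2
      let Y : Finset (List α) := X ∪ (Finset.univ.filter fun p => Equ a₁ a₂ e p).image u
      have hXY : X ⊆ Y := Finset.subset_union_left
      have huY : ∀ p, Equ a₁ a₂ e p → u p ∈ Y := fun p hp =>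
        Finset.mem_union_right _ (Finset.mem_image_of_mem _
          (Finset.mem_filter.2 ⟨Finset.mem_univ _, hp⟩))
      have hY0 : [] ∉ Y := by
        intro h
        rcases Finset.mem_union.1 h with h | h
        · exact h0 h
        · obtain ⟨p, -, hp⟩ := Finset.mem_image.1 h
          have h1 := p.2.2
          have h2 : p.1.1.drop p.1.2 = [] := hp
          rw [List.drop_eq_nil_iff] at h2
          omega
      let E : List α → List α → Prop := fun u v => u ∈ Y ∧ v ∈ Y ∧ Adj Y u v
      have hEsymm : ∀ u v, Relation.ReflTransGen E u v → Relation.ReflTransGen E v u := by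
        intro u v h
        induction h with
        | refl => exact Relation.ReflTransGen.refl
        | tail _ h2 ih => exact Relation.ReflTransGen.head ⟨h2.2.1, h2.1, h2.2.2.symm⟩ ih
      have hconn : ∀ p q, Equ a₁ a₂ p q → Equ a₁ a₂ e p →
          Relation.ReflTransGen E (u p) (u q) := by
        intro p q h
        induction h with
        | rel p q hpq =>
          intro hp
          obtain ⟨z, h1, h2⟩ := hpq
          have hq : Equ a₁ a₂ e q := Relation.EqvGen.trans _ _ _ hp
            (Relation.EqvGen.rel _ _ ⟨z, h1, h2⟩)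
          refine Relation.ReflTransGen.single ⟨huY p hp, huY q hq, ?_⟩
          rw [hcast z, ha₁] at h1
          rw [hcast z, ha₂] at h2
          obtain ⟨s, -, hs0, hs1⟩ := ha.exists_tail (z.val : ℤ)
          obtain ⟨r, -, hr0, hr1⟩ := hb.exists_tail (z.val : ℤ)
          refine ⟨st w s, st w r, (ha.fac hs0).mono hXY, (hb.fac hr0).mono hXY, ?_⟩
          rw [← h1, ← h2]
          show app ((a (z.val : ℤ)).1.drop (a (z.val : ℤ)).2) (st w s) =
            app ((b (z.val : ℤ)).1.drop (b (z.val : ℤ)).2) (st w r)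
          rw [← hs1, ← hr1]
        | refl p => intro _; exact Relation.ReflTransGen.refl
        | symm p q hpq ih =>
          intro hq
          apply hEsymm
          apply ih
          exact Relation.EqvGen.trans _ _ _ hq (Relation.EqvGen.symm _ _ hpq)
        | trans p q r hpq _ ih1 ih2 =>
          intro hp
          exact (ih1 hp).trans (ih2 (Relation.EqvGen.trans _ _ _ hp hpq))
      have hux : ∀ p, Equ a₁ a₂ e p → Relation.ReflTransGen E (u p) x := by
        intro p hp
        apply hEsymm
        have h1 := hconn e p hp (Relation.EqvGen.refl _)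
        exact h1
      obtain ⟨Z, hZ0, hZc, hZ⟩ := graph_lemma _ Y rfl hY0 (X.erase y) (by
        intro v hv
        have hxT : x ∈ X.erase y := Finset.mem_erase.2 ⟨hxy, hx⟩
        rcases Finset.mem_union.1 hv with h | h
        · by_cases h1 : v = y
          · refine ⟨x, hxT, ?_⟩
            have h2 := hux e' hequ
            have h3 : u e' = v := by rw [h1]; rfl
            rw [← h3]
            exact h2
          · exact ⟨v, Finset.mem_erase.2 ⟨h1, h⟩, Relation.ReflTransGen.refl⟩
        · obtain ⟨p, hp, rfl⟩ := Finset.mem_image.1 h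
          exact ⟨x, hxT, hux p (Finset.mem_filter.1 hp).2⟩)
      have h1 : rc X ≤ Z.card := rc_le hZ0 fun v hv => hZ v (hXY hv)
      have h2 : (X.erase y).card = X.card - 1 := Finset.card_erase_of_mem hy
      have h3 : 0 < X.card := Finset.card_pos.2 ⟨x, hx⟩
      omega
    · -- surjectivity
      rintro ⟨⟨x, j⟩, hx, hj⟩
      obtain ⟨t, ht⟩ := hall x hx
      have hj2 : j < x.length := hj
      have hst : ∀ i : ℕ, i < x.length → b (t + i) = (x, i) := by
        intro i
        induction i with
        | zero => intro _; simpa using ht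
        | succ i ih =>
          intro hi
          have e1 : t + ((i + 1 : ℕ) : ℤ) = t + i + 1 := by push_cast; ring
          rw [e1]
          exact (hpred b hb x i (t + i) hi).2 (ih (by omega))
      refine ⟨((t + j : ℤ) : ZMod M), ?_⟩
      rw [ha₂]
      exact Subtype.ext (hst j hj2)
  obtain ⟨θ, hθ⟩ := core hgood
  refine ⟨(θ.val : ℤ), fun t => ?_⟩
  have h1 := hθ (t : ZMod M)
  rw [hcast θ, ← Int.cast_add, ha₁, ha₂] at h1
  exact congrArg Subtype.val h1

end Two

/-- from position functions back to factorizations -/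
lemma shiftEquiv_of_pos {X : Finset (List α)} {w : ℤ → α} {k k' : ℤ → ℤ}
    (hk : IsFact X w k) (hk' : IsFact X w k') {a b : ℤ → List α × ℕ}
    (ha' : ∀ t i, k' i ≤ t → t < k' (i + 1) →
      a t = (block w (k' i) (k' (i + 1)), (t - k' i).toNat))
    (hb' : ∀ t i, k i ≤ t → t < k (i + 1) →
      b t = (block w (k i) (k (i + 1)), (t - k i).toNat))
    {m : ℤ} (hm : ∀ t, b t = a (t + m)) : ShiftEquiv w k k' := by
  have key : ∀ i, ∃ j, k' j = k i + m ∧
      block w (k' j) (k' (j + 1)) = block w (k i) (k (i + 1)) := by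
    intro i
    obtain ⟨j, h1, h2⟩ := fact_cover hk' (k i + m)
    have h3 := hb' (k i) i le_rfl (hk.lt i)
    rw [hm, ha' _ j h1 h2] at h3
    have h4 := congrArg Prod.fst h3
    have h5 := congrArg Prod.snd h3
    simp only at h4 h5
    refine ⟨j, by omega, h4⟩
  choose j hj1 hj2 using key
  have hmono : StrictMono k' := strictMono_int_of_lt_succ hk'.lt
  have hstep : ∀ i, j (i + 1) = j i + 1 := by
    intro i
    apply hmono.injective
    rw [hj1 (i + 1)]
    have h1 := congrArg List.length (hj2 i)
    rw [block_length, block_length] at h1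
    have h2 := hk.lt i
    have h3 := hk'.lt (j i)
    have h4 := hj1 i
    omega
  have hall : ∀ i : ℤ, j i = j 0 + i := by
    intro i
    induction i using Int.induction_on with
    | zero => simp
    | succ i ih => rw [hstep, ih]; ring
    | pred i ih =>
      have h1 := hstep (-i - 1)
      have h2 : (-(i : ℤ) - 1 + 1) = -i := by ring
      rw [h2, ih] at h1
      omega
  refine ⟨j 0, fun i => ?_⟩
  have h1 := hj2 i
  rw [hall i] at h1
  rw [add_comm i (j 0)]
  exact h1

/-- **Theorem.** Let `X` be a finite set of nonempty words with `r_c(X) = card X`. If an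
`X`-factorization of a bi-infinite word contains every element of `X`, then every
`X`-factorization of the word is shift-equivalent to it. In particular any two
`X`-factorizations of a bi-infinite word that each contain every element of `X` are
shift-equivalent. -/
theorem result {α : Type*} (X : Finset (List α)) (h0 : [] ∉ X) (hrank : rc X = X.card)
    (w : ℤ → α) (k₁ k₂ : ℤ → ℤ) (h₁ : IsFact X w k₁) (h₂ : IsFact X w k₂)
    (hall : ∀ x ∈ X, Contains w k₁ x) : ShiftEquiv w k₁ k₂ := by
  obtain ⟨a, ha, ha'⟩ := exists_pos h₂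
  obtain ⟨b, hb, hb'⟩ := exists_pos h₁
  rcases no_common h0 hrank ha hb with h | h
  · exact shiftEquiv_of_pos h₁ h₂ ha' hb' (m := 0) (fun t => by rw [add_zero, h])
  · obtain ⟨m, hm⟩ := shift_of_no_common h0 hrank ha hb h (by
      intro x hx
      obtain ⟨i, hi⟩ := hall x hx
      refine ⟨k₁ i, ?_⟩
      rw [hb' (k₁ i) i le_rfl (h₁.lt i), hi]
      simp)
    exact shiftEquiv_of_pos h₁ h₂ ha' hb' hm

end Pool.Agent.Results.MP_e67e26_co.ShiftEquivalent
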